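import Pool.Agent.Q225.GH.Stm

set_option autoImplicit false

namespace Pool.Agent.Q26.GH

open Finset Pool.Agent.Q225.GH

theorem t_ORTH : S_ORTH := by
  intro V _ _ H _ pos P Q h
  unfold form
  have h1 : ∑ d : H.Dart, Pool.Agent.Q225.GH.on P d * pot pos Q d = 0 := by
    refine Finset.sum_eq_zero fun d _ => ?_
    by_cases hd : Pool.Agent.Q225.GH.on P d = 0
    · rw [hd, zero_mul]
    · have h2 : pot pos Q d = 0 := by
        unfold pot
        refine Finset.sum_eq_zero fun d' hd' => ?_
        rw [Finset.mem_filter] at hd'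
        exact (h d d' hd'.2.1.symm).resolve_left hd
      rw [h2, mul_zero]
  have h2 : ∑ e, P e * Q e = 0 := by
    refine Finset.sum_eq_zero fun e _ => ?_
    obtain ⟨e, he⟩ := e
    induction e using Sym2.ind with
    | _ v w =>
      have hadj : H.Adj v w := he
      let d : H.Dart := ⟨(v, w), hadj⟩
      rcases h d d rfl with h3 | h3
      · have h4 : P ⟨s(v, w), he⟩ = 0 := h3
        rw [h4, zero_mul]
      · have h4 : Q ⟨s(v, w), he⟩ = 0 := h3
        rw [h4, mul_zero]
  rw [h1, h2, add_zero]

end Pool.Agent.Q26.GH
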